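import Mathlib
import Pool.Agent.H892.ZL.Stm

set_option autoImplicit false

/-!
# Extension of sections: assembly
-/

namespace Pool.Agent.H284.ZL

open Pool.Agent.H892.ZL MvPolynomial Matrix

theorem eval_gp_zero (x : Fin 3 → ℂ) (I : Fin 6) :
    eval (pt x (fun _ => 0)) (gp I) = 0 := by
  fin_cases I <;> simp [gp, aff, plu, pt]

theorem eval_kap_zero (K : MvPolynomial (Fin 6) ℂ) (hK : K.IsHomogeneous 3) (x : Fin 3 → ℂ) :
    eval (pt x (fun _ => 0)) (kap K) = 0 := by
  have h1 : (eval (pt x (fun _ => 0))).comp (aeval gp : MvPolynomial (Fin 6) ℂ →ₐ[ℂ] SA).toRingHom =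
      eval (fun I => eval (pt x (fun _ => 0)) (gp I)) := by
    apply MvPolynomial.ringHom_ext
    · intro r
      simp
    · intro i
      simp
  have h2 : eval (pt x (fun _ => 0)) (kap K) =
      eval (fun I => eval (pt x (fun _ => 0)) (gp I)) K := by
    have h4 := DFunLike.congr_fun h1 K
    rw [RingHom.comp_apply] at h4
    exact h4
  have h3 : (fun I => eval (pt x (fun _ => 0)) (gp I)) = fun _ => (0 : ℂ) :=
    funext fun I => eval_gp_zero x I
  rw [h2, h3, MvPolynomial.eval_zero', MvPolynomial.constantCoeff_eq]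
  exact hK.coeff_eq_zero (by simp)

/-- Extension of sections. -/
theorem t_NORM (h1 : S_KAPH) (h2 : S_N1) (h3 : S_N2) (h4 : S_N3) (h5 : S_N4) : S_NORM := by
  intro K hG hP s hs e A₁ B₁ hA hB hBK hloc
  obtain ⟨N, hN⟩ := h2 K hG hP s hs e A₁ B₁ hA hB hBK hloc
  obtain ⟨c, r, hc, hdvd⟩ := h3 K hG hP e (aeval gp A₁) (aeval gp B₁) hBK (h1 (e + 1) A₁ hA)
    (h1 e B₁ hB) N s hs hN
  have hk := h4 K hG hP A₁ B₁ hBK c r hdvd
  obtain ⟨d, hd⟩ := h5 c r hc hk
  suffices key : kap K ∣ aeval gp A₁ - (∑ I, C (d I) * gp I) * aeval gp B₁ from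
    Exists.intro d key
  have e1 : ∀ P Q : SA, P = inx c * Q → inx c * aeval gp A₁ - P * aeval gp B₁ =
      inx c * (aeval gp A₁ - Q * aeval gp B₁) := by
    intro P Q h
    rw [h]
    ring
  rw [e1 _ _ hd] at hdvd
  rcases hP.dvd_or_dvd hdvd with h | h
  · exfalso
    apply hc
    obtain ⟨q, hq⟩ := h
    apply MvPolynomial.funext
    intro x
    have h6 := congrArg (eval (pt x (fun _ => 0))) hq
    rw [map_mul, eval_kap_zero K hG.hom, zero_mul] at h6
    have h7 : eval (pt x (fun _ => 0)) (inx c) = eval x c := by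
      unfold inx pt
      rw [MvPolynomial.eval_rename, Sum.elim_comp_inl]
    rw [← h7, h6, map_zero]
  · exact h

end Pool.Agent.H284.ZL
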